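import Pool.Agent.Lib.MP_ddd032_lc.Final

set_option autoImplicit false

/-!
For every cardinal, the full Baumgartner axiom on the Baire space holds exactly when the weak one
holds and the cardinal is below the unbounding number or above the continuum.
-/

namespace Pool.Agent.Results.MP_ddd032_lc.BaireExact

open Cardinal Pool.Agent.Lib.MP_ddd032_lc

theorem result (κ : Cardinal.{0}) :
    BA κ (ℕ → ℕ) ↔ BAweak κ (ℕ → ℕ) ∧ (κ < bNum ∨ 𝔠 < κ) :=
  baire_exact κ

end Pool.Agent.Results.MP_ddd032_lc.BaireExact
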