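import Pool.Agent.Lib.MP_ddd032_lc.Final

set_option autoImplicit false

/-!
Weak and full Baumgartner axioms on the Baire space: the two axioms are equivalent for every
cardinal below `ℵ_ω`, for every cardinal at most the unbounding number, at most the covering
number of the meager ideal, or at least the uniformity of the meager ideal, and for further
cardinals.
-/

namespace Pool.Agent.Results.MP_ddd032_lc.WeakFullBaire

open Cardinal Pool.Agent.Lib.MP_ddd032_lc

theorem result (κ : Cardinal.{0})
    (h : κ < ℵ_ Ordinal.omega0 ∨ κ ≤ bNum ∨ κ ≤ covM ∨ nonM ≤ κ ∨ FewCountable κ ∨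
      ∃ S : Set (ℕ → Bool), #S = κ ∧ IsThin κ S) :
    BAweak κ (ℕ → ℕ) ↔ BA κ (ℕ → ℕ) :=
  baire' h

end Pool.Agent.Results.MP_ddd032_lc.WeakFullBaire
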