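import Pool.Agent.Lib.MP_ddd032_lc.Final

set_option autoImplicit false

/-!
Weak and full Baumgartner axioms on Cantor space: the two axioms are equivalent for every
cardinal below `ℵ_ω`, for every cardinal at most the unbounding number, at most the covering
number of the meager ideal, or at least the uniformity of the meager ideal, and for further
cardinals.

For `κ` below the unbounding number, the weak axiom gives homeomorphisms between the pieces of
the two sets in all cylinders; the moduli of all these homeomorphisms are bounded by countably
many functions, and a back-and-forth construction glues countably many closed partial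
homeomorphisms to a homeomorphism of Cantor space.  For `κ` between the unbounding number and
the continuum the weak axiom fails: one constructs a `κ`-dense set all of whose countable subsets
have small `G_δ` envelopes and one that does not have this property.
-/

namespace Pool.Agent.Results.MP_ddd032_lc.WeakFullCantor

open Cardinal Pool.Agent.Lib.MP_ddd032_lc

theorem result (κ : Cardinal.{0})
    (h : κ < ℵ_ Ordinal.omega0 ∨ κ ≤ bNum ∨ κ ≤ covM ∨ nonM ≤ κ ∨ FewCountable κ ∨
      ∃ S : Set (ℕ → Bool), #S = κ ∧ IsThin κ S) :
    BAweak κ (ℕ → Bool) ↔ BA κ (ℕ → Bool) :=
  cantor' h

end Pool.Agent.Results.MP_ddd032_lc.WeakFullCantor
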